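import Mathlib
import Pool.Agent.H55.CkM2

namespace Pool.Agent.Results.MP_36ad39_gt.AscoliAleph

open Pool.Agent.H55.CkM

/-- An Ascoli aleph-space that is not a `C[M]`-space. -/
theorem result : ∃ (X : Type) (_ : TopologicalSpace X), IsAscoli X ∧ IsAleph X ∧ ¬ InCM X :=
  ⟨S, inferInstance, ascoli_of_k S, aleph, not_inCM⟩

end Pool.Agent.Results.MP_36ad39_gt.AscoliAleph
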